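import Pool.Agent.Helper61.P3.St4

/-!
# Project P3, module SUT: one class, fixed type
-/

set_option autoImplicit false

open MeasureTheory Set Filter Topology
open scoped ENNReal RealInnerProductSpace

namespace Pool.Agent.Helper92.P3

open Pool.Agent.Helper61.P3 Pool.Agent.Helper20.RG Pool.Agent.Helper20.EQ
open Pool.Agent.Helper68.LM (Pl BB Bd Av HL ft fm DQ)
open Pool.Agent.Helper68.EP (elt GapP)

private lemma four_zpow (n : ℕ) : (4 : ℝ) ^ (1 - (n : ℤ)) = 4 * (2 : ℝ) ^ (-(2 * (n : ℝ))) := by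
  rw [zpow_sub₀ (by norm_num), zpow_one, zpow_natCast, Real.rpow_neg (by norm_num),
    Real.rpow_mul (by norm_num), Real.rpow_natCast, div_eq_mul_inv]
  norm_num

private lemma sixteen_pow (ρ : ℕ) : (16 : ℝ) ^ ρ = (2 : ℝ) ^ (4 * (ρ : ℝ)) := by
  rw [Real.rpow_mul (by norm_num), Real.rpow_natCast]
  norm_num

private lemma key_eq (C V : ℝ) (hV : 0 < V) (u n ρ : ℕ) :
    C * (4 : ℝ) ^ (1 - (n : ℤ)) * (16 : ℝ) ^ ρ / (mt V u n ρ) ^ 3 =
      (4 * C * (22000 / V) ^ 3 * (2 : ℝ) ^ ((103 / 100 : ℝ) * ((n : ℝ) + ρ))) *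
        (2 : ℝ) ^ (-(3 * (u : ℝ))) := by
  have h3 : (mt V u n ρ) ^ 3 = (V / 22000) ^ 3 *
      (2 : ℝ) ^ (3 * ((u : ℝ) + ρ - n - ((n : ℝ) + ρ) / 100)) := by
    unfold Pool.Agent.Helper61.P3.mt
    rw [mul_pow, ← Real.rpow_natCast ((2 : ℝ) ^ ((u : ℝ) + ρ - n - ((n : ℝ) + ρ) / 100)) 3,
      ← Real.rpow_mul (by norm_num)]
    congr 2
    push_cast
    ring
  rw [h3, four_zpow, sixteen_pow]
  have h4 : (2 : ℝ) ^ ((103 / 100 : ℝ) * ((n : ℝ) + ρ)) * (2 : ℝ) ^ (-(3 * (u : ℝ))) =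
      (2 : ℝ) ^ (-(2 * (n : ℝ))) * (2 : ℝ) ^ (4 * (ρ : ℝ)) *
        ((2 : ℝ) ^ (3 * ((u : ℝ) + ρ - n - ((n : ℝ) + ρ) / 100)))⁻¹ := by
    rw [← Real.rpow_neg (by norm_num), ← Real.rpow_add (by norm_num),
      ← Real.rpow_add (by norm_num), ← Real.rpow_add (by norm_num)]
    congr 1
    ring
  have h5 : (0 : ℝ) < (2 : ℝ) ^ (3 * ((u : ℝ) + ρ - n - ((n : ℝ) + ρ) / 100)) :=
    Real.rpow_pos_of_pos (by norm_num) _
  rw [mul_assoc (4 * C * (22000 / V) ^ 3), h4]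
  field_simp

private lemma mt_eq (V : ℝ) (u n ρ : ℕ) :
    mt V u n ρ = (V / 22000 * (2 : ℝ) ^ ((99 / 100 : ℝ) * ρ - (101 / 100 : ℝ) * n)) * (2 : ℝ) ^ u := by
  unfold Pool.Agent.Helper61.P3.mt
  rw [← Real.rpow_natCast 2 u, mul_assoc, ← Real.rpow_add (by norm_num)]
  congr 2
  ring

private lemma Hh_card (c : Pl) (φ τ : ℝ → ℝ) (u ρ : ℕ) (k : ℤ) (g : Pl → ℝ) (x : Pl) :
    ((Hh c φ τ u ρ k g x).ncard : ℝ) ≤ (2 : ℝ) ^ u := by
  have h1 : Hh c φ τ u ρ k g x ⊆ (Finset.range (2 ^ u) : Set ℕ) := by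
    intro j hj
    simpa using hj.1
  have h2 := Set.ncard_le_ncard h1 (Finset.finite_toSet _)
  rw [Set.ncard_coe_finset, Finset.card_range] at h2
  exact_mod_cast h2

private lemma geo (D : ℝ) (hD : 0 ≤ D) :
    ∑' u : ℕ, ENNReal.ofReal (D * (2 : ℝ) ^ (-((u : ℝ) / 40))) =
      ENNReal.ofReal (D * (1 - (2 : ℝ) ^ (-(1 / 40 : ℝ)))⁻¹) := by
  have hr0 : (0 : ℝ) < (2 : ℝ) ^ (-(1 / 40 : ℝ)) := Real.rpow_pos_of_pos (by norm_num) _
  have hr1 : (2 : ℝ) ^ (-(1 / 40 : ℝ)) < 1 :=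
    Real.rpow_lt_one_of_one_lt_of_neg (by norm_num) (by norm_num)
  have h1 : ∀ u : ℕ, (2 : ℝ) ^ (-((u : ℝ) / 40)) = ((2 : ℝ) ^ (-(1 / 40 : ℝ))) ^ u := by
    intro u
    rw [← Real.rpow_natCast, ← Real.rpow_mul (by norm_num)]
    congr 1
    ring
  have h2 : Summable fun u : ℕ => D * ((2 : ℝ) ^ (-(1 / 40 : ℝ))) ^ u :=
    (summable_geometric_of_lt_one hr0.le hr1).mul_left D
  simp only [h1]
  rw [← ENNReal.ofReal_tsum_of_nonneg (fun u => mul_nonneg hD (pow_nonneg hr0.le u)) h2,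
    tsum_mul_left, tsum_geometric_of_lt_one hr0.le hr1]

theorem hSUT (hGDL : Pool.Agent.Helper20.EQ.StGDL) (hRIY : Pool.Agent.Helper61.P3.StRIY)
    (hNUC : Pool.Agent.Helper61.P3.StNUC) (hONC : Pool.Agent.Helper61.P3.StONC)
    (hQSU : Pool.Agent.Helper61.P3.StQSU) : Pool.Agent.Helper61.P3.StSUT := by
  intro φ τ A c hG hA hGap
  obtain ⟨C₁, U₁, hC₁, hU₁, hO⟩ := hONC φ τ A c hG hA hGap
  obtain ⟨U₂, hU₂, hN, -, -⟩ := hNUC
  obtain ⟨C₃, hC₃, hQ⟩ := hQSU φ τ A hG hA hGap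
  obtain ⟨hg1, hg2, -⟩ := hGDL
  set S₄ : ℝ := (1 - (2 : ℝ) ^ (-(1 / 40 : ℝ)))⁻¹ with hS₄
  have hS₄0 : 0 ≤ S₄ := by
    have hr1 : (2 : ℝ) ^ (-(1 / 40 : ℝ)) < 1 :=
      Real.rpow_lt_one_of_one_lt_of_neg (by norm_num) (by norm_num)
    exact inv_nonneg.2 (by linarith)
  have hCC : 0 ≤ 64 * C₁ * C₃ * 22000 ^ 5 := by positivity
  have hCS : 0 ≤ 8 * C₁ * S₄ := by positivity
  refine ⟨2 * C₁ + 64 * C₁ * C₃ * 22000 ^ 5 + 8 * C₁ * S₄, max U₁ U₂, by linarith,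
    le_max_of_le_left hU₁, ?_⟩
  intro V R₀ n ρ f hV hV1 hR hf hf0
  set U₀ := max U₁ U₂ with hU₀
  -- the exponent of the type
  set y : ℝ := (99 / 100 : ℝ) * ρ - (101 / 100 : ℝ) * n with hy
  by_cases hty : V / 22000 * (2 : ℝ) ^ y ≤ 1
  swap
  · -- all sets are empty
    push Not at hty
    have hempty : ∀ (u : ℕ) (k l : ℤ) (x : Pl), ¬ TY c φ τ V u n ρ k l f x := by
      intro u k l x h
      have h1 := h.2.trans (Hh_card c φ τ u ρ k (lev f (l - 1 + n)) x)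
      rw [mt_eq, ← hy] at h1
      have h2 : (0 : ℝ) < (2 : ℝ) ^ u := by positivity
      nlinarith
    have h0 : ∀ (u : ℕ) (k l : ℤ), volume {x | Gd R₀ l f x ∧ TY c φ τ V u n ρ k l f x} = 0 := by
      intro u k l
      have : {x | Gd R₀ l f x ∧ TY c φ τ V u n ρ k l f x} = ∅ := by
        ext x
        simp [hempty u k l x]
      rw [this, measure_empty]
    simp only [h0, tsum_zero, ite_self, mul_zero]
    exact zero_le
  -- the main case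
  set K : ℝ := 4 * C₁ * (22000 / V) ^ 3 * (2 : ℝ) ^ ((103 / 100 : ℝ) * ((n : ℝ) + ρ)) with hK
  have hK0 : 0 ≤ K := by positivity
  set E : ℝ := (2 : ℝ) ^ (-((2 * (n : ℝ) + ρ) / 4)) with hE
  have hE0 : 0 < E := Real.rpow_pos_of_pos (by norm_num) _
  set X : ℕ → (Pl → ℝ) → ℝ≥0∞ := fun u g => if U₀ ≤ u ∧ 10000 * n < u ∧ 1000 * ρ ≤ u then
    ENNReal.ofReal (C₁ * (4 : ℝ) ^ (1 - (n : ℤ)) * (16 : ℝ) ^ ρ / (mt V u n ρ) ^ 3) *
      (BQ0 τ u g + EX τ u 1 g) +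
    ENNReal.ofReal (C₁ * (2 : ℝ) ^ (-((u : ℝ) / 20))) * ∫⁻ x, ‖g x‖ₑ ^ 2 else 0 with hX
  -- the sum over the classes
  have hsum : ∀ g : Pl → ℝ, BB g → (∀ x, 0 ≤ g x ∧ g x ≤ 1) →
      ∑' u : ℕ, X u g ≤ ENNReal.ofReal (2 * C₃ * K + C₁ * E * S₄) * ∫⁻ x, ‖g x‖ₑ ^ 2 := by
    intro g hg _
    obtain ⟨hq1, hq2⟩ := hQ g hg
    have hq2' := hq2 1 le_rfl
    set I : ℝ≥0∞ := ∫⁻ x, ‖g x‖ₑ ^ 2 with hI
    have hle : ∀ u : ℕ, X u g ≤
        (ENNReal.ofReal K *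
          (if 2 ≤ u then ENNReal.ofReal ((2 : ℝ) ^ (-(3 * (u : ℝ)))) * BQ0 τ u g else 0) +
        ENNReal.ofReal K *
          (if 2 ≤ u then ENNReal.ofReal ((2 : ℝ) ^ (-(3 * (u : ℝ)))) * EX τ u 1 g else 0)) +
        ENNReal.ofReal (C₁ * E * (2 : ℝ) ^ (-((u : ℝ) / 40))) * I := by
      intro u
      simp only [hX]
      split_ifs with h1 h2
      · have hK' : ENNReal.ofReal (C₁ * (4 : ℝ) ^ (1 - (n : ℤ)) * (16 : ℝ) ^ ρ /
            (mt V u n ρ) ^ 3) = ENNReal.ofReal K * ENNReal.ofReal ((2 : ℝ) ^ (-(3 * (u : ℝ)))) := by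
          rw [key_eq C₁ V hV u n ρ, ← hK, ENNReal.ofReal_mul hK0]
        rw [hK']
        have hb : ENNReal.ofReal (C₁ * (2 : ℝ) ^ (-((u : ℝ) / 20))) ≤
            ENNReal.ofReal (C₁ * E * (2 : ℝ) ^ (-((u : ℝ) / 40))) := by
          apply ENNReal.ofReal_le_ofReal
          rw [mul_assoc]
          refine mul_le_mul_of_nonneg_left ?_ (by linarith)
          rw [hE, ← Real.rpow_add (by norm_num)]
          apply Real.rpow_le_rpow_of_exponent_le (by norm_num)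
          have h3 : (10000 : ℝ) * n < u := by exact_mod_cast h1.2.1
          have h4 : (1000 : ℝ) * ρ ≤ u := by exact_mod_cast h1.2.2
          have h5 : (0 : ℝ) ≤ n := Nat.cast_nonneg n
          have h6 : (0 : ℝ) ≤ ρ := Nat.cast_nonneg ρ
          linarith
        refine add_le_add (le_of_eq ?_) (mul_le_mul' hb le_rfl)
        ring
      · exfalso
        exact h2 (le_trans (le_trans hU₁ (le_max_left _ _)) h1.1)
      · exact zero_le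
      · exact zero_le
    refine (ENNReal.tsum_le_tsum hle).trans ?_
    rw [ENNReal.tsum_add, ENNReal.tsum_add, ENNReal.tsum_mul_left, ENNReal.tsum_mul_left,
      ENNReal.tsum_mul_right, geo (C₁ * E) (by positivity), ← hS₄]
    have hq2'' : ∑' u : ℕ, (if 2 ≤ u then
        ENNReal.ofReal ((2 : ℝ) ^ (-(3 * (u : ℝ)))) * EX τ u 1 g else 0) ≤
        ENNReal.ofReal C₃ * I := by
      refine hq2'.trans (mul_le_mul' (ENNReal.ofReal_le_ofReal ?_) le_rfl)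
      have : (2 : ℝ) ^ (-(((1 : ℕ) : ℝ) / 8)) ≤ 1 :=
        Real.rpow_le_one_of_one_le_of_nonpos (by norm_num) (by norm_num)
      calc C₃ * (2 : ℝ) ^ (-(((1 : ℕ) : ℝ) / 8)) ≤ C₃ * 1 :=
            mul_le_mul_of_nonneg_left this (by linarith)
        _ = C₃ := mul_one _
    calc ENNReal.ofReal K * ∑' u : ℕ, (if 2 ≤ u then
            ENNReal.ofReal ((2 : ℝ) ^ (-(3 * (u : ℝ)))) * BQ0 τ u g else 0) +
          ENNReal.ofReal K * ∑' u : ℕ, (if 2 ≤ u then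
            ENNReal.ofReal ((2 : ℝ) ^ (-(3 * (u : ℝ)))) * EX τ u 1 g else 0) +
          ENNReal.ofReal (C₁ * E * S₄) * I
        ≤ ENNReal.ofReal K * (ENNReal.ofReal C₃ * I) + ENNReal.ofReal K * (ENNReal.ofReal C₃ * I) +
          ENNReal.ofReal (C₁ * E * S₄) * I :=
          add_le_add (add_le_add (mul_le_mul' le_rfl hq1) (mul_le_mul' le_rfl hq2'')) le_rfl
      _ = ENNReal.ofReal (2 * C₃ * K + C₁ * E * S₄) * I := by
          rw [ENNReal.ofReal_add (by positivity) (by positivity), add_mul]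
          congr 1
          rw [← mul_assoc, ← ENNReal.ofReal_mul hK0, ← add_mul, ← ENNReal.ofReal_add
            (by positivity) (by positivity)]
          congr 2
          ring
  -- comparison of the terms
  have hterm : ∀ (l : ℤ) (u : ℕ), (if U₀ ≤ u ∧ (2 : ℝ) ^ (-((u : ℝ) / 20000)) ≤ V then
        ∑' k : ℤ, volume {x | Gd R₀ l f x ∧ TY c φ τ V u n ρ k l f x} else 0) ≤
        X u (lev f (l - 1 + n)) := by
    intro l u
    split_ifs with h1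
    swap
    · exact zero_le
    by_cases h2 : 10000 * n < u
    swap
    · have h0 : ∀ k : ℤ, volume {x | Gd R₀ l f x ∧ TY c φ τ V u n ρ k l f x} = 0 := by
        intro k
        have : {x | Gd R₀ l f x ∧ TY c φ τ V u n ρ k l f x} = ∅ := by
          ext x
          simp only [Set.mem_ofPred_eq, Set.mem_empty_iff_false, iff_false]
          rintro ⟨-, h3, -⟩
          exact h2 h3
        rw [this, measure_empty]
      simp only [h0, tsum_zero]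
      exact zero_le
    have hmt : mt V u n ρ ≤ (2 : ℝ) ^ u := by
      rw [mt_eq, ← hy]
      have h3 : (0 : ℝ) < (2 : ℝ) ^ u := by positivity
      nlinarith
    have hmt' : mt V u n ρ ≤ (2 : ℝ) ^ (u + 1) := by
      refine hmt.trans ?_
      rw [pow_succ]
      have h3 : (0 : ℝ) < (2 : ℝ) ^ u := by positivity
      linarith
    obtain ⟨n1, n2, n3, n4⟩ := hN V u n ρ (le_trans (le_max_right _ _) h1.1) h2 h1.2 hV1 hmt'
    have hm0 : 0 < mt V u n ρ := by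
      rw [mt_eq]; positivity
    obtain ⟨b1, b2⟩ := hg1 f (l - 1 + n) hf hf0
    have hloc : ∀ x ∈ {x | Gd R₀ l f x}, Loc C₁ ((4 : ℝ) ^ (1 - (n : ℤ)))
        (lev f (l - 1 + n)) x := by
      intro x hx
      have h3 := hg2 C₁ R₀ f l (l - 1 + n) x hC₁ (by linarith) hf hf0 hx
      have h4 : l - (l - 1 + (n : ℤ)) = 1 - (n : ℤ) := by ring
      rwa [h4] at h3
    have hfin := hO u ρ (mt V u n ρ) ((4 : ℝ) ^ (1 - (n : ℤ))) (lev f (l - 1 + n))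
      {x | Gd R₀ l f x} (le_trans (le_max_left _ _) h1.1) n1 (by linarith) n3 n4 b1 b2 hloc
    simp only [hX]
    rw [if_pos ⟨h1.1, h2, n1⟩]
    refine le_trans (ENNReal.tsum_le_tsum fun k => measure_mono ?_) hfin
    rintro x ⟨hx1, hx2⟩
    exact ⟨hx1, hx2.2⟩
  -- summation over the levels
  have hall := hRIY (2 * C₃ * K + C₁ * E * S₄) X (by positivity) hsum f n hf hf0
  refine (ENNReal.tsum_le_tsum fun l => mul_le_mul' le_rfl
    (ENNReal.tsum_le_tsum fun u => hterm l u)).trans (hall.trans ?_)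
  refine mul_le_mul' (ENNReal.ofReal_le_ofReal ?_) le_rfl
  -- the numerical inequality
  have hz : (2 : ℝ) ^ (-(3 * (n : ℤ))) = (2 : ℝ) ^ (-(3 * (n : ℝ))) := by
    rw [← Real.rpow_intCast]
    congr 1
    push_cast
    ring
  rw [hz]
  have ha1 : (1 : ℝ) ≤ 22000 / V := by
    rw [le_div_iff₀ hV]; linarith
  have hya : (2 : ℝ) ^ y ≤ 22000 / V := by
    rw [le_div_iff₀ hV]
    have : V / 22000 * (2 : ℝ) ^ y * 22000 ≤ 1 * 22000 :=
      mul_le_mul_of_nonneg_right hty (by norm_num)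
    linarith
  have hn0 : (0 : ℝ) ≤ n := Nat.cast_nonneg n
  have hρ0 : (0 : ℝ) ≤ ρ := Nat.cast_nonneg ρ
  have h43 : (2 : ℝ) ^ ((128 / 100 : ℝ) * ρ - (147 / 100 : ℝ) * n) ≤ (22000 / V) ^ 2 := by
    calc (2 : ℝ) ^ ((128 / 100 : ℝ) * ρ - (147 / 100 : ℝ) * n) ≤ (2 : ℝ) ^ (y * (4 / 3 : ℝ)) := by
          apply Real.rpow_le_rpow_of_exponent_le (by norm_num)
          rw [hy]
          linarith
      _ = ((2 : ℝ) ^ y) ^ (4 / 3 : ℝ) := by rw [Real.rpow_mul (by norm_num)]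
      _ ≤ (22000 / V) ^ (4 / 3 : ℝ) :=
          Real.rpow_le_rpow (Real.rpow_nonneg (by norm_num) _) hya (by norm_num)
      _ ≤ (22000 / V) ^ (2 : ℝ) := Real.rpow_le_rpow_of_exponent_le ha1 (by norm_num)
      _ = (22000 / V) ^ 2 := by norm_num
  have hprod : (2 : ℝ) ^ (-(3 * (n : ℝ))) * (2 : ℝ) ^ ((103 / 100 : ℝ) * ((n : ℝ) + ρ)) =
      E * (2 : ℝ) ^ ((128 / 100 : ℝ) * ρ - (147 / 100 : ℝ) * n) := by
    rw [hE, ← Real.rpow_add (by norm_num), ← Real.rpow_add (by norm_num)]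
    congr 1
    ring
  have hle1 : (2 : ℝ) ^ (-(3 * (n : ℝ))) ≤ 1 :=
    Real.rpow_le_one_of_one_le_of_nonpos (by norm_num) (by linarith)
  have hV6 : V ^ 6 ≤ V ^ 5 := by
    have : 0 ≤ V ^ 5 := by positivity
    nlinarith
  have hV6' : V ^ 6 ≤ 1 := pow_le_one₀ hV.le hV1
  have hfirst : 8 * (2 : ℝ) ^ (-(3 * (n : ℝ))) * (2 * C₃ * K) ≤
      64 * C₁ * C₃ * 22000 ^ 5 / V ^ 6 * E := by
    calc 8 * (2 : ℝ) ^ (-(3 * (n : ℝ))) * (2 * C₃ * K)
        = 64 * C₁ * C₃ * (22000 / V) ^ 3 * ((2 : ℝ) ^ (-(3 * (n : ℝ))) *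
            (2 : ℝ) ^ ((103 / 100 : ℝ) * ((n : ℝ) + ρ))) := by rw [hK]; ring
      _ = 64 * C₁ * C₃ * (22000 / V) ^ 3 * E *
            (2 : ℝ) ^ ((128 / 100 : ℝ) * ρ - (147 / 100 : ℝ) * n) := by rw [hprod]; ring
      _ ≤ 64 * C₁ * C₃ * (22000 / V) ^ 3 * E * (22000 / V) ^ 2 :=
          mul_le_mul_of_nonneg_left h43 (by positivity)
      _ = 64 * C₁ * C₃ * 22000 ^ 5 / V ^ 5 * E := by field_simp
      _ ≤ 64 * C₁ * C₃ * 22000 ^ 5 / V ^ 6 * E := by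
          refine mul_le_mul_of_nonneg_right ?_ hE0.le
          exact div_le_div_of_nonneg_left hCC (by positivity) hV6
  have hsecond : 8 * (2 : ℝ) ^ (-(3 * (n : ℝ))) * (C₁ * E * S₄) ≤ 8 * C₁ * S₄ / V ^ 6 * E := by
    calc 8 * (2 : ℝ) ^ (-(3 * (n : ℝ))) * (C₁ * E * S₄)
        = (8 * C₁ * S₄) * E * (2 : ℝ) ^ (-(3 * (n : ℝ))) := by ring
      _ ≤ (8 * C₁ * S₄) * E * 1 := mul_le_mul_of_nonneg_left hle1 (by positivity)
      _ = (8 * C₁ * S₄) / 1 * E := by ring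
      _ ≤ 8 * C₁ * S₄ / V ^ 6 * E := by
          refine mul_le_mul_of_nonneg_right ?_ hE0.le
          exact div_le_div_of_nonneg_left hCS (by positivity) hV6'
  have hthird : 0 ≤ 2 * C₁ / V ^ 6 * E := by positivity
  calc 8 * (2 : ℝ) ^ (-(3 * (n : ℝ))) * (2 * C₃ * K + C₁ * E * S₄)
      = 8 * (2 : ℝ) ^ (-(3 * (n : ℝ))) * (2 * C₃ * K) +
        8 * (2 : ℝ) ^ (-(3 * (n : ℝ))) * (C₁ * E * S₄) := by ring
    _ ≤ 64 * C₁ * C₃ * 22000 ^ 5 / V ^ 6 * E + 8 * C₁ * S₄ / V ^ 6 * E :=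
        add_le_add hfirst hsecond
    _ ≤ 2 * C₁ / V ^ 6 * E + (64 * C₁ * C₃ * 22000 ^ 5 / V ^ 6 * E + 8 * C₁ * S₄ / V ^ 6 * E) :=
        le_add_of_nonneg_left hthird
    _ = (2 * C₁ + 64 * C₁ * C₃ * 22000 ^ 5 + 8 * C₁ * S₄) / V ^ 6 * E := by ring

end Pool.Agent.Helper92.P3
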